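import Pool.Agent.W2helper31.BE.Stm

set_option autoImplicit false

/-! # Piece RADC of project BE: conditioning on the first sign -/

namespace Pool.Agent.W2helper27.BE

open Finset Pool.Agent.W2helper31.BE

theorem card_cons (n : ℕ) (p : (Fin (n + 1) → Bool) → Prop) [DecidablePred p] :
    (univ.filter p).card = (univ.filter (fun ε : Fin n → Bool => p (Fin.cons true ε))).card +
      (univ.filter (fun ε : Fin n → Bool => p (Fin.cons false ε))).card := by
  simp only [card_filter]
  rw [← Equiv.sum_comp (Fin.consEquiv (fun _ => Bool)) (fun ε => if p ε then 1 else 0),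
    Fintype.sum_prod_type, Fintype.sum_bool]
  rfl

theorem p_RADC : P_RADC := by
  intro n a x
  have h2 : (2 : ℝ) ^ (n + 1) = 2 ^ n * 2 := pow_succ 2 n
  have e1 : ∀ ε : Fin n → Bool, (∑ i, (if (Fin.cons true ε : Fin (n + 1) → Bool) i then a i else -a i)) =
      a 0 + ∑ i, (if ε i then a i.succ else -a i.succ) := by
    intro ε; rw [Fin.sum_univ_succ]; simp
  have e2 : ∀ ε : Fin n → Bool, (∑ i, (if (Fin.cons false ε : Fin (n + 1) → Bool) i then a i else -a i)) =
      -a 0 + ∑ i, (if ε i then a i.succ else -a i.succ) := by
    intro ε; rw [Fin.sum_univ_succ]; simp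
  constructor
  · unfold Fle
    rw [card_cons]
    simp only [e1, e2]
    have f1 : ∀ s : ℝ, (a 0 + s ≤ x) = (s ≤ x - a 0) := fun s => by
      apply propext; constructor <;> intro h <;> linarith
    have f2 : ∀ s : ℝ, (-a 0 + s ≤ x) = (s ≤ x + a 0) := fun s => by
      apply propext; constructor <;> intro h <;> linarith
    simp only [f1, f2]
    push_cast
    rw [h2]
    field_simp
  · unfold Flt
    rw [card_cons]
    simp only [e1, e2]
    have f1 : ∀ s : ℝ, (a 0 + s < x) = (s < x - a 0) := fun s => by
      apply propext; constructor <;> intro h <;> linarith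
    have f2 : ∀ s : ℝ, (-a 0 + s < x) = (s < x + a 0) := fun s => by
      apply propext; constructor <;> intro h <;> linarith
    simp only [f1, f2]
    push_cast
    rw [h2]
    field_simp

end Pool.Agent.W2helper27.BE
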